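import Pool.Agent.H.MP_4814b8_lc.D

set_option autoImplicit false

namespace Pool.Agent.H.MP_def589_lc

open Pool.Agent.H.MP_369bda_lc Pool.Agent.H.MP_4814b8_lc St Filter

abbrev Q := St × Bool

def x₀ : St := s false 0 false

open Classical in
noncomputable def dl (q : Q) (c : Fin 5) : Q :=
  if 3 ≤ c then (x₀, decide (act q.1 c = bot)) else (act q.1 c, false)

def pr (q : Q) : ℕ := cond q.2 1 0

def W : Set (Stream' (Fin 5)) := {w | Acc dl pr (x₀, false) w}

lemma acc_iff (q : Q) (w : Stream' (Fin 5)) :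
    Acc dl pr q w ↔ ∀ᶠ n in atTop, ((w.take n).foldl dl q).2 = false := by
  have k (q : Q) : pr q = 0 ↔ q.2 = false := by obtain ⟨_, _ | _⟩ := q <;> simp [pr]
  refine ⟨fun ⟨d, a, b, c⟩ => ?_, fun h => ⟨0, Even.zero, h.frequently.mono fun n => (k _).2,
    h.mono fun n a => ((k _).2 a).le⟩⟩
  obtain ⟨n, b⟩ := b.exists
  obtain rfl : d = 0 := by
    generalize (w.take n).foldl dl q = z at b
    obtain ⟨_, _ | _⟩ := z
    · exact b.symm
    · subst b; simp [pr] at a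
  exact c.mono fun n a => (k _).1 (Nat.le_zero.1 a)

lemma act_fin (x : St) {c : Fin 5} (h : 3 ≤ c) : act x c = top ∨ act x c = bot := by
  fin_cases c <;> simp at h <;> cases x <;> simp [act] <;> grind

lemma dl_mono {q r : Q} (h : Wx q.1 ⊆ Wx r.1) (c : Fin 5) :
    Wx (dl q c).1 ⊆ Wx (dl r c).1 ∧ ((dl q c).2 = false → (dl r c).2 = false) := by
  classical
  unfold dl
  split_ifs with k
  · refine ⟨subset_rfl, fun a => decide_eq_false fun b => ?_⟩
    have := W_mono h c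
    rw [b, (act_fin q.1 k).resolve_right (of_decide_eq_false a), W_top, W_bot] at this
    exact this (Set.mem_univ (Stream'.const 0))
  · exact ⟨W_mono h c, id⟩

/-- A sequence of states below the true run from some point on. -/
lemma track {c : ℕ → Fin 5} {x y : ℕ → Q} (a : ∀ n, x (n + 1) = dl (x n) (c n)) {N : ℕ}
    (b : ∀ n ≥ N, Wx (y (n + 1)).1 ⊆ Wx (dl (y n) (c n)).1 ∧ (dl (y n) (c n)).2 = false) :
    ∀ᶠ n in atTop, (x n).2 = false := by
  by_cases h : ∃ n ≥ N, 3 ≤ c n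
  · obtain ⟨n, l, h⟩ := h
    have (k : ℕ) (i : n + 1 ≤ k) : Wx (y k).1 ⊆ Wx (x k).1 := by
      induction k, i using Nat.le_induction with
      | base => simpa only [a, dl, if_pos h] using (b n l).1
      | succ k i ih => rw [a]; exact (b k (by omega)).1.trans (dl_mono ih _).1
    refine eventually_atTop.2 ⟨n + 2, fun k i => ?_⟩
    obtain ⟨k, rfl⟩ := Nat.exists_eq_add_one_of_ne_zero (by omega : k ≠ 0)
    rw [a]
    exact (dl_mono (this k (by omega)) _).2 (b k (by omega)).2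
  · refine eventually_atTop.2 ⟨N + 1, fun k i => ?_⟩
    obtain ⟨k, rfl⟩ := Nat.exists_eq_add_one_of_ne_zero (by omega : k ≠ 0)
    rw [a, dl, if_neg fun j => h ⟨k, by omega, j⟩]

lemma pi (x : List (Fin 5)) (y : Stream' (Fin 5)) : x ++ₛ y ∈ W ↔ y ∈ W := by
  have (q r : Q) (h : Acc dl pr q y) : Acc dl pr r y := by
    rw [acc_iff] at *
    obtain ⟨N, h⟩ := eventually_atTop.1 h
    have e (q : Q) (n : ℕ) : (y.take (n + 1)).foldl dl q = dl ((y.take n).foldl dl q) (y.get n) := by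
      rw [Stream'.take_succ', List.foldl_append]; rfl
    exact track (y := fun n => (y.take n).foldl dl q) (N := N) (e r) fun n l => by
      rw [← e]; exact ⟨subset_rfl, h _ (by omega)⟩
  exact (acc_app dl pr _ _ _).trans ⟨this _ _, this _ _⟩

def ty : St → Option Bool × Bool
  | top => (none, true)
  | bot => (none, false)
  | s p _ b => (some p, b)

def lv : St → ℕ
  | s _ n _ => n
  | _ => 0

lemma ty_le {x y : St} (h : ty x = ty y) (l : lv x ≤ lv y) : Wx x ⊆ Wx y := by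
  cases x <;> cases y <;> simp [ty] at h <;> try exact subset_rfl
  obtain ⟨rfl, rfl⟩ := h
  rcases l.lt_or_eq with l | l
  · exact W_lt _ l _ _
  · cases l; exact subset_rfl

lemma pr_le (q : Q) : pr q ≤ 1 := by
  obtain ⟨_, _ | _⟩ := q <;> simp [pr]

theorem genW : GenMem W 12 := by
  intro G _
  classical
  choose ou ho using G.out
  have (v : G.V) : ∃ t, (∃ t, G.Wins W t v) → G.Wins W t v := by
    by_cases a : ∃ t, G.Wins W t v
    · exact ⟨a.choose, fun _ => a.choose_spec⟩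
    · exact ⟨fun _ => ou, fun b => (a b).elim⟩
  choose t ht using this
  let N (z : G.V × Stream' G.E × ℕ) :=
    nd dl pr (fun _ _ => ()) (x₀, false) () (t z.1) z.1 z.2.1 z.2.2
  let ρ (z : G.V × Stream' G.E × ℕ) := (N z).2.2 (x₀, true)
  let Z (u : G.V) : Set (G.V × Stream' G.E × ℕ) :=
    {z | G.Wins W (t z.1) z.1 ∧ Pl (t z.1) z.1 z.2.1 ∧ G.src (z.2.1.get z.2.2) = u}
  let j (u : G.V) : Ordinal.{0} := sInf (ρ '' Z u)
  have (u : G.V) (m : (Option Bool × Bool) × Bool) : ∃ y, (Z u).Nonempty → (y ∈ Z u ∧ ρ y = j u) ∧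
      ∀ z ∈ Z u, ρ z = j u → (ty (N z).1.1, (N z).1.2) = m →
        Wx (N y).1.1 ⊆ Wx (N z).1.1 ∧ (N y).1.2 = (N z).1.2 := by
    by_cases h : {z | z ∈ Z u ∧ ρ z = j u ∧ (ty (N z).1.1, (N z).1.2) = m}.Nonempty
    · let f (z : G.V × Stream' G.E × ℕ) := lv (N z).1.1
      obtain ⟨a, b, c⟩ := Function.argminOn_mem f _ h
      refine ⟨_, fun _ => ⟨⟨a, b⟩, fun z i k l => ?_⟩⟩
      obtain ⟨d, e⟩ := Prod.ext_iff.1 (c.trans l.symm)
      exact ⟨ty_le d (Function.argminOn_le f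
        {z | z ∈ Z u ∧ ρ z = j u ∧ (ty (N z).1.1, (N z).1.2) = m} ⟨i, k, l⟩), e⟩
    · by_cases k : (Z u).Nonempty
      · obtain ⟨y, a⟩ := csInf_mem (k.image ρ)
        exact ⟨y, fun _ => ⟨a, fun z i k l => (h ⟨z, i, k, l⟩).elim⟩⟩
      · exact ⟨(u, fun _ => ou u, 0), fun a => (k a).elim⟩
  choose y hy using this
  refine virt (M := (Option Bool × Bool) × Bool) default
    (fun m e m' => (Z (G.src e)).Nonempty → (Z (G.tgt e)).Nonempty ∧ j (G.tgt e) ≤ j (G.src e) ∧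
      (j (G.tgt e) = j (G.src e) → (N (y (G.src e) m)).1.2 = false ∧
        Wx (N (y (G.tgt e) m')).1.1 ⊆ Wx (dl (N (y (G.src e) m)).1 (G.col e)).1 ∧
        (N (y (G.tgt e) m')).1.2 = (dl (N (y (G.src e) m)).1 (G.col e)).2))
    (fun v m => ?_) fun v w e m a b _ d => ?_
  · by_cases h : (Z v).Nonempty
    · obtain ⟨⟨⟨w, p, i⟩, k⟩, -⟩ := hy v m h
      refine ⟨_, i, fun e l => ?_⟩
      obtain ⟨f, f1, f2, f3⟩ := extn w.1 p _ e l.1 fun ev => l.2 (l.1 ▸ ev)
      obtain ⟨s1, -, s2⟩ := step (μ := fun _ _ => ()) (m₀ := ()) w f1 f3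
      obtain ⟨s2, s3⟩ := s2 (x₀, true) odd_one
      have z : ((y v m).1, f, (y v m).2.2 + 1) ∈ Z (G.tgt e) := ⟨w, f1, by rw [← f1.2.1, f2]⟩
      have r : j (G.tgt e) ≤ ρ _ := csInf_le' ⟨_, z, rfl⟩
      have s2 : ρ ((y v m).1, f, (y v m).2.2 + 1) ≤ j v := k ▸ s2 (pr_le _)
      rw [f2] at s1
      rw [l.1, i]
      change (N ((y v m).1, f, (y v m).2.2 + 1)).1 = dl (N (y v m)).1 _ at s1
      refine ⟨(ty (dl (N (y v m)).1 (G.col e)).1, (dl (N (y v m)).1 (G.col e)).2),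
        fun _ => ⟨⟨_, z⟩, r.trans s2, fun c => ⟨?_, ?_⟩⟩⟩
      · by_contra g
        exact (r.trans_lt (k ▸ s3 (congrArg (cond · 1 0) (Bool.not_eq_false _ ▸ g)))).ne c
      · rw [← s1]
        exact (hy _ _ ⟨_, z⟩).2 _ z (le_antisymm (c ▸ s2) r) rfl
    · exact ⟨ou v, ho v, fun e l => ⟨m, fun a => (h (by rwa [l.1, ho] at a)).elim⟩⟩
  · have ne (n : ℕ) : (Z (G.src (e.get n))).Nonempty := by
      induction n with
      | zero =>
        obtain ⟨f, f1, f2, f3⟩ := gen (ht v w).1 [] v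
        exact ⟨(v, f, 0), ht v w, ⟨f1, f2, fun n _ => f3 n⟩, f1.trans a.symm⟩
      | succ n ih => exact b n ▸ (d n ih).1
    have d (n : ℕ) := b n ▸ (d n (ne n)).2
    obtain ⟨K, h⟩ := WellFoundedLT.antitone_chain_condition
      (antitone_nat_of_succ_le (f := fun n => j (G.src (e.get n))) fun n => (d n).1)
    have d (n : ℕ) (l : K ≤ n) := (d n).2 ((h _ (by omega)).symm.trans (h n l))
    exact (acc_iff _ _).2 (track (y := fun n => (N (y (G.src (e.get n)) (m n))).1) (N := K)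
      (rn_succ dl _ e) fun n l => ⟨(d n l).2.1, (d n l).2.2.symm.trans (d _ (by omega)).1⟩)

end Pool.Agent.H.MP_def589_lc
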