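import Pool.Agent.H.MP_def589_lc.A

set_option autoImplicit false

namespace Pool.Agent.H.MP_def589_lc

open Pool.Agent.H.MP_369bda_lc Pool.Agent.H.MP_4814b8_lc St Filter List

variable {L : Bool → List (Fin 5)}

def Eh (e : Option (Nd L) × Fin 5 × Option (Nd L)) : Prop :=
  (∃ x y, e.1 = some x ∧ e.2.2 = some y ∧ x.1 = e.2.1 :: y.1) ∨
  (∃ x, e.1 = some x ∧ x.1 = [] ∧ e.2.2 = none ∧ 3 ≤ e.2.1) ∨
  (∃ y b, e.1 = none ∧ e.2.1 = 0 ∧ e.2.2 = some y ∧ y.1 = L b)

def eh (b c : Bool) : Option (Nd L) → {e : Option (Nd L) × Fin 5 × Option (Nd L) // Eh e}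
  | none => ⟨(none, 0, some ⟨L b, by cases b <;> simp⟩), .inr (.inr ⟨_, b, rfl, rfl, rfl, rfl⟩)⟩
  | some ⟨[], h⟩ => ⟨(some ⟨[], h⟩, cond c 4 3, none), .inr (.inl ⟨_, rfl, rfl, rfl, by
      cases c <;> simp⟩)⟩
  | some ⟨a :: l, h⟩ => ⟨(some ⟨_, h⟩, a,
      some ⟨l, h.imp (suffix_cons a l).trans (suffix_cons a l).trans⟩), .inl ⟨_, _, rfl, rfl, rfl⟩⟩

lemma eh_src (b c : Bool) (v : Option (Nd L)) : (eh b c v).1.1 = v := by
  obtain _ | ⟨_ | _, h⟩ := v <;> rfl

def zz : Nd L := ⟨[], .inl nil_suffix⟩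

def Br (L : Bool → List (Fin 5)) : Game (Fin 5) where
  V := Option (Nd L)
  E := {e : Option (Nd L) × Fin 5 × Option (Nd L) // Eh e}
  src e := e.1.1
  tgt e := e.1.2.2
  col e := e.1.2.1
  eve v := v = some zz
  out v := ⟨eh true true v, eh_src _ _ _⟩

lemma Br_ar (L : Bool → List (Fin 5)) : Arena (Br L) :=
  haveI : Finite (Nd L) := (Ar_ar L).1
  ⟨inferInstanceAs (Finite (Option (Nd L))), ⟨none⟩, fun _ _ h => Subtype.ext h⟩

lemma dl_lt (q : Q) {c : Fin 5} (h : c < 3) : dl q c = (act q.1 c, false) := if_neg h.not_ge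

lemma sep (lt : ∀ b, ∀ c ∈ L b, c < 3) (h : ∀ b, ∃ p, (0 :: L b).foldl act x₀ = s p 0 b)
    {M : Type} {m₀ : M} {μ : M → Fin 5 → M} (k : (Br L).Suf W m₀ μ)
    (e : ∀ m, (L true).foldl μ m = (L false).foldl μ m) : False := by
  classical
  obtain ⟨σ, k⟩ := k
  have lt (x : Nd L) (c : Fin 5) (l : List (Fin 5)) (a : x.1 = c :: l) : c < 3 :=
    x.2.elim (fun i => lt _ c (i.subset (a ▸ mem_cons_self)))
      fun i => lt _ c (i.subset (a ▸ mem_cons_self))
  have inv (P : Bool → M → Prop) (f : Stream' (Br L).E) (a : (Br L).src (f.get 0) = none)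
      (b : ∀ n, (Br L).tgt (f.get n) = (Br L).src (f.get (n + 1)))
      (c : ∀ n y b, (Br L).src (f.get n) = none → (Br L).tgt (f.get n) = some y → y.1 = L b →
        ∃ b, y.1 = L b ∧ P b ((L b).foldl μ (μ (rn μ m₀ f n) 0))) (n : ℕ) :
      ((Br L).src (f.get n) = none → (rn dl (x₀, false) f n).1 = x₀) ∧
      ∀ x, (Br L).src (f.get n) = some x → ∃ p b,
        x.1.foldl act (rn dl (x₀, false) f n).1 = s p 0 b ∧ P b (x.1.foldl μ (rn μ m₀ f n)) := by
    induction n with
    | zero => exact ⟨fun _ => rfl, fun x i => by cases a.symm.trans i⟩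
    | succ n ih =>
      rw [← b, rn_succ, rn_succ]
      rcases (f.get n).2 with ⟨x, y, i, j, k⟩ | ⟨x, i, j, k, l⟩ | ⟨y, c', i, j, k, l⟩
      · refine ⟨fun r => (nomatch j.symm.trans r), fun z r => ?_⟩
        obtain rfl : y = z := Option.some.inj (j.symm.trans r)
        have := ih.2 x i
        rw [k] at this
        rwa [dl_lt (c := (Br L).col _) _ (lt x _ _ k)]
      · exact ⟨fun _ => by rw [dl, if_pos (show 3 ≤ (Br L).col _ from l)],
          fun z r => by cases k.symm.trans r⟩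
      · refine ⟨fun r => (nomatch k.symm.trans r), fun z r => ?_⟩
        obtain rfl : y = z := Option.some.inj (k.symm.trans r)
        obtain ⟨b, u, v⟩ := c n y c' i k l
        obtain ⟨p, w⟩ := h b
        rw [show (Br L).col (f.get n) = 0 from j, dl_lt _ (by decide), ih.1 i, u]
        exact ⟨p, b, w, v⟩
  have w := k none ⟨fun l => eh true (decide (act ((l.map (Br L).col).foldl dl (x₀, false)).1 3 = bot)),
    fun _ => eh_src _ _, fun f a b c => (acc_iff _ _).2 (eventually_atTop.2 ⟨1, fun n l => by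
      obtain ⟨n, rfl⟩ := Nat.exists_eq_add_one_of_ne_zero (by omega : n ≠ 0)
      change (rn dl _ f (n + 1)).2 = _
      rw [rn_succ]
      rcases (f.get n).2 with ⟨x, y, i, j, k⟩ | ⟨x, i, j, k, l⟩ | ⟨y, c', i, j, k, l⟩
      · rw [dl_lt (c := (Br L).col _) _ (lt x _ _ k)]
      · obtain rfl : x = zz := Subtype.ext j
        obtain ⟨p, d, u, -⟩ := (inv (fun _ _ => True) f a b (fun _ _ b _ _ r => ⟨b, r, trivial⟩) n).2 _ i
        have c := c n i
        beta_reduce at c
        rw [Stream'.map_take, show (Br L).src _ = _ from i] at c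
        change (rn dl _ f n).1 = _ at u
        change _ = eh true (decide (act (rn dl _ f n).1 3 = bot)) _ at c
        rw [dl, if_pos (show 3 ≤ (Br L).col _ from l), c, u]
        cases d <;> simp [act, eh, zz, Br]
      · rw [show (Br L).col (f.get n) = 0 from j, dl_lt _ (by decide)]⟩)⟩
  let P (b : Bool) (m : M) : Prop := b = decide ((Br L).col (σ (some zz) m) = 3)
  let t (l : List (Br L).E) (u : (Br L).V) : (Br L).E := if u = some zz then
    σ u ((l.map (Br L).col).foldl μ m₀) else eh (decide ((Br L).col (σ (some zz)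
      ((L true).foldl μ (μ ((l.map (Br L).col).foldl μ m₀) 0))) = 3)) true u
  obtain ⟨f, a, b, c⟩ := gen (s := t) (fun l u => by
    simp only [t]; split_ifs; exacts [w.1 l u, eh_src _ _ _]) [] none
  simp only [nil_append, t] at c
  have i := (acc_iff _ _).1 (w.2 f a b fun n i => (c n).trans (if_pos i))
  simp only [Stream'.map_take] at c
  have inv := inv P f a b fun n y _ i j _ => by
    have c := c n
    rw [i, if_neg (by simp)] at c
    rw [c] at j
    refine ⟨_, (congrArg Subtype.val (Option.some.inj j)).symm, ?_⟩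
    have (d : Bool) (m : M) : (L d).foldl μ m = (L true).foldl μ m := by
      cases d
      exacts [(e m).symm, rfl]
    rw [this _ (μ (rn μ m₀ f n) 0)]
    rfl
  have fr (k n : ℕ) (x : Nd L) (l : x.1.length = k) (i : (Br L).src (f.get n) = some x) :
      ∃ m ≥ n, (Br L).src (f.get m) = some zz := by
    induction k generalizing n x with
    | zero => exact ⟨n, le_rfl, i.trans (congrArg _ (Subtype.ext (length_eq_zero_iff.1 l)))⟩
    | succ k ih =>
      rcases (f.get n).2 with ⟨x', y, i', j, r⟩ | ⟨x', i', j, r⟩ | ⟨y, c', i', j⟩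
      · obtain rfl : x' = x := Option.some.inj (i'.symm.trans i)
        obtain ⟨m, u, v⟩ := ih (n + 1) y (by simpa [r] using l) ((b n).symm.trans j)
        exact ⟨m, by omega, v⟩
      · obtain rfl : x' = x := Option.some.inj (i'.symm.trans i)
        simp [j] at l
      · cases i'.symm.trans i
  obtain ⟨N, i⟩ := eventually_atTop.1 i
  obtain ⟨n, l, j⟩ : ∃ m ≥ N, (Br L).src (f.get m) = some zz := by
    rcases (f.get N).2 with ⟨x, y, i, -⟩ | ⟨x, i, -⟩ | ⟨y, c', -, -, j, -⟩
    · exact fr _ N x rfl i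
    · exact fr _ N x rfl i
    · obtain ⟨m, u, v⟩ := fr _ (N + 1) y rfl ((b N).symm.trans j)
      exact ⟨m, by omega, v⟩
  obtain ⟨p, d, u, v⟩ := (inv n).2 _ j
  have i : (rn dl _ f (n + 1)).2 = _ := i (n + 1) (by omega)
  have c := c n
  rw [if_pos j, j] at c
  change (rn dl _ f n).1 = _ at u
  change d = decide ((Br L).col (σ _ (rn μ m₀ f n)) = 3) at v
  rw [rn, ← c] at v
  rcases (f.get n).2 with ⟨x, y, i', -, r⟩ | ⟨x, -, -, -, r⟩ | ⟨y, c', i', -⟩
  · obtain rfl : x = zz := Option.some.inj (i'.symm.trans j)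
    cases r
  · change 3 ≤ (Br L).col (f.get n) at r
    rw [rn_succ, dl, if_pos r, u, v] at i
    generalize (Br L).col (f.get n) = c at i r
    fin_cases c <;> simp [act] at i r
  · cases i'.symm.trans j

theorem chrW (k : ℕ) : ¬ Mem W k Arena := by
  intro h
  obtain ⟨a, p, e⟩ : ∃ a p, ∀ f : Fin k → Fin k, f^[a + (p + 1)] = f^[a] := by
    obtain ⟨a, b, n, e⟩ := Finite.exists_ne_map_eq_of_infinite fun (n : ℕ) (f : Fin k → Fin k) => f^[n]
    wlog l : a < b generalizing a b
    · exact this b a n.symm e.symm (by omega)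
    obtain ⟨p, rfl⟩ := Nat.exists_eq_add_of_lt l
    exact ⟨a, p, fun f => (congrFun e f).symm⟩
  obtain ⟨i, l, pi⟩ := Nat.exists_infinite_primes (a + 1)
  obtain ⟨i, rfl⟩ := Nat.exists_eq_add_one_of_ne_zero pi.ne_zero
  have g (f : Fin k → Fin k) (j : ℕ) : f^[i + j * (p + 1)] = f^[i] := by
    obtain ⟨i, rfl⟩ := Nat.exists_eq_add_of_le' (Nat.le_of_succ_le_succ l)
    clear pi
    induction j with
    | zero => simp
    | succ j ih =>
      rw [← ih, Nat.succ_mul, show i + a + (j * (p + 1) + (p + 1)) = i + j * (p + 1) + (a + (p + 1)) by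
        omega, Function.iterate_add, e, ← Function.iterate_add, add_right_comm]
  let u (b : Bool) := cond b i (i + (i + 1) * (p + 1))
  let L (b : Bool) : List (Fin 5) :=
    replicate (u b) 0 ++ 1 :: (replicate (u !b) 0 ++ replicate (1 + u b + 1 + u !b) 2)
  obtain ⟨m₀, μ, h⟩ := h (Br L) (Br_ar L)
  refine sep (fun b c => ?_) (fun b => ?_) h fun m => ?_
  · simp only [L, mem_append, mem_cons, mem_replicate]
    rintro (⟨-, rfl⟩ | rfl | ⟨-, rfl⟩ | ⟨-, rfl⟩) <;> decide
  · have : decide (1 + u b).Prime = b := by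
      cases b
      · have := pi.two_le
        exact decide_eq_false (by
          rw [show 1 + u false = (i + 1) * (p + 2) by simp only [u, cond]; ring]
          exact Nat.not_prime_mul (by omega) (by omega))
      · exact decide_eq_true (add_comm i 1 ▸ pi)
    have k : act (s false (1 + u b) false) 1 = s false (1 + u b + 1) b := by simp [act, this]
    have k' : act x₀ 0 = s false 1 false := rfl
    simp only [L, foldl_append, foldl_cons, f_rep, up, k, k']
    exact dw _ false b
  · simp only [L, foldl_append, foldl_cons, f_rep, u, cond, Bool.not, g]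
    congr 1
    omega

end Pool.Agent.H.MP_def589_lc
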